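import Mathlib

set_option autoImplicit false

namespace Pool.Agent.Lib.MP_579feb_co

open Finset

variable {V : Type*} [Fintype V] [DecidableEq V] (G : SimpleGraph V) [DecidableRel G.Adj]

/-- Double counting of adjacent pairs between two finite vertex sets. -/
theorem double_count (C D : Finset V) :
    ∑ c ∈ C, (G.neighborFinset c ∩ D).card = ∑ d ∈ D, (G.neighborFinset d ∩ C).card := by
  have h1 : ∀ (A B : Finset V), ∑ a ∈ A, (G.neighborFinset a ∩ B).card
      = ∑ a ∈ A, ∑ b ∈ B, if G.Adj a b then 1 else 0 := by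
    intro A B
    refine Finset.sum_congr rfl ?_
    intro a _
    rw [← Finset.card_filter]
    congr 1
    ext b
    simp [and_comm]
  rw [h1, h1, Finset.sum_comm]
  refine Finset.sum_congr rfl ?_
  intro d _
  refine Finset.sum_congr rfl ?_
  intro c _
  simp only [G.adj_comm]

/-- If all neighbours of `C` lie in `D`, the edges from `D` to the outside of `C` number
`3|D| - 3|C|`. -/
theorem out_count (hreg : G.IsRegularOfDegree 3) (C D : Finset V)
    (hCD : ∀ c ∈ C, ∀ w, G.Adj c w → w ∈ D) :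
    ∑ d ∈ D, (G.neighborFinset d \ C).card + 3 * C.card = 3 * D.card := by
  have h1 : ∑ c ∈ C, (G.neighborFinset c ∩ D).card = 3 * C.card := by
    rw [mul_comm, ← smul_eq_mul, ← Finset.sum_const]
    refine Finset.sum_congr rfl ?_
    intro c hc
    have : G.neighborFinset c ∩ D = G.neighborFinset c := by
      apply Finset.inter_eq_left.mpr
      intro w hw
      exact hCD c hc w (by simpa using hw)
    rw [this]
    exact hreg c
  rw [← h1, double_count, ← Finset.sum_add_distrib, mul_comm, ← smul_eq_mul, ← Finset.sum_const]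
  refine Finset.sum_congr rfl ?_
  intro d _
  rw [Finset.card_sdiff_add_card_inter]
  exact hreg d

theorem card_succ_le (hreg : G.IsRegularOfDegree 3) (C D : Finset V)
    (hCD : ∀ c ∈ C, ∀ w, G.Adj c w → w ∈ D) (d w : V) (hd : d ∈ D) (hdw : G.Adj d w)
    (hw : w ∉ C) : C.card + 1 ≤ D.card := by
  have h := out_count G hreg C D hCD
  have h2 : (G.neighborFinset d \ C).card ≤ ∑ d ∈ D, (G.neighborFinset d \ C).card :=
    Finset.single_le_sum (f := fun d => (G.neighborFinset d \ C).card) (fun _ _ => Nat.zero_le _) hd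
  have h3 : 0 < (G.neighborFinset d \ C).card :=
    Finset.card_pos.mpr ⟨w, by simp [hdw, hw]⟩
  omega

/-- The obstruction to identifying the ends of the edge `u v`. -/
def Bad (u v : V) : Prop :=
  ∃ C D : Finset V, Disjoint C D ∧ (∀ c ∈ C, ∀ w, G.Adj c w → w ∈ D) ∧ D.card ≤ C.card + 1 ∧
    u ∈ D ∧ v ∈ D

/-- `a b` is the only edge leaving `K`. -/
def Bridge (a b : V) (K : Finset V) : Prop :=
  G.Adj a b ∧ a ∈ K ∧ b ∉ K ∧ ∀ p ∈ K, ∀ q, q ∉ K → G.Adj p q → p = a ∧ q = b

theorem not_bad_of_bridge (hreg : G.IsRegularOfDegree 3) {a b : V} {K : Finset V}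
    (hb : Bridge G a b K) : ¬ Bad G a b := by
  rintro ⟨C, D, hdisj, hCD, hcard, haD, hbD⟩
  obtain ⟨hab, haK, hbK, huniq⟩ := hb
  have h1 : (C ∩ K).card + 1 ≤ (D ∩ K).card := by
    refine card_succ_le G hreg _ _ ?_ a b (mem_inter.mpr ⟨haD, haK⟩) hab (by simp [hbK])
    intro c hc w hw
    obtain ⟨hcC, hcK⟩ := mem_inter.mp hc
    refine mem_inter.mpr ⟨hCD c hcC w hw, ?_⟩
    by_contra hwK
    obtain ⟨rfl, -⟩ := huniq c hcK w hwK hw
    exact Finset.disjoint_left.mp hdisj hcC haD
  have h2 : (C \ K).card + 1 ≤ (D \ K).card := by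
    refine card_succ_le G hreg _ _ ?_ b a (mem_sdiff.mpr ⟨hbD, hbK⟩) hab.symm (by simp [haK])
    intro c hc w hw
    obtain ⟨hcC, hcK⟩ := mem_sdiff.mp hc
    refine mem_sdiff.mpr ⟨hCD c hcC w hw, ?_⟩
    intro hwK
    obtain ⟨-, rfl⟩ := huniq w hwK c hcK hw.symm
    exact Finset.disjoint_left.mp hdisj hcC hbD
  have h3 := Finset.card_sdiff_add_card_inter C K
  have h4 := Finset.card_sdiff_add_card_inter D K
  omega

theorem bridge_of_bad (hreg : G.IsRegularOfDegree 3) {u v : V} (huv : G.Adj u v)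
    (hbad : Bad G u v) : ∃ a b K, Bridge G a b K := by
  obtain ⟨C, D, hdisj, hCD, hcard, huD, hvD⟩ := hbad
  have h := out_count G hreg C D hCD
  let Q : Finset (V × V) := univ.filter (fun p => p.1 ∈ D ∧ G.Adj p.1 p.2 ∧ p.2 ∉ C)
  have hQ : Q.card = ∑ d ∈ D, (G.neighborFinset d \ C).card := by
    rw [Finset.card_eq_sum_card_fiberwise (f := Prod.fst) (t := D)
      (by intro p hp; simp only [Q, coe_filter, mem_univ, true_and, Set.mem_ofPred_eq] at hp
          exact hp.1)]
    refine Finset.sum_congr rfl ?_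
    intro d hd
    refine Finset.card_bij (fun p _ => p.2) ?_ ?_ ?_
    · intro p hp
      simp only [Q, mem_filter, mem_univ, true_and] at hp
      obtain ⟨⟨_, h2, h3⟩, rfl⟩ := hp
      simp [h2, h3]
    · intro p hp q hq hpq
      simp only [Q, mem_filter, mem_univ, true_and] at hp hq
      exact Prod.ext (hp.2.trans hq.2.symm) hpq
    · intro w hw
      simp only [mem_sdiff, SimpleGraph.mem_neighborFinset] at hw
      exact ⟨(d, w), by simp [Q, hd, hw.1, hw.2], rfl⟩
  have huC : u ∉ C := fun hc => Finset.disjoint_left.mp hdisj hc huD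
  have hvC : v ∉ C := fun hc => Finset.disjoint_left.mp hdisj hc hvD
  have hne : (u, v) ≠ (v, u) := by
    intro h
    exact huv.ne (Prod.mk.inj h).1
  have hsub : ({(u, v), (v, u)} : Finset (V × V)) ⊆ Q := by
    intro p hp
    simp only [mem_insert, mem_singleton] at hp
    rcases hp with rfl | rfl
    · simp [Q, huD, huv, hvC]
    · simp [Q, hvD, huv.symm, huC]
  have h2 : ({(u, v), (v, u)} : Finset (V × V)).card = 2 := Finset.card_pair hne
  have hle := Finset.card_le_card hsub
  have hQ3 : Q.card = 3 := by omega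
  have hone : (Q \ {(u, v), (v, u)}).card = 1 := by
    rw [Finset.card_sdiff_of_subset hsub]
    omega
  obtain ⟨⟨a, b⟩, hab⟩ := Finset.card_eq_one.mp hone
  have hmem : (a, b) ∈ Q \ {(u, v), (v, u)} := by rw [hab]; exact mem_singleton_self _
  have huniq : ∀ p ∈ Q, p ≠ (u, v) → p ≠ (v, u) → p = (a, b) := by
    intro p hp h1 h2
    have : p ∈ Q \ {(u, v), (v, u)} := by simp [hp, h1, h2]
    rw [hab] at this
    exact mem_singleton.mp this
  simp only [Q, mem_sdiff, mem_filter, mem_univ, true_and, mem_insert, mem_singleton,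
    not_or] at hmem
  obtain ⟨⟨haD, hadj, hbC⟩, hn1, hn2⟩ := hmem
  have haC : a ∉ C := fun hc => Finset.disjoint_left.mp hdisj hc haD
  have hbD : b ∉ D := by
    intro hbD
    have : (b, a) = (a, b) := by
      apply huniq
      · simp [Q, hbD, hadj.symm, haC]
      · intro h
        apply hn2
        obtain ⟨rfl, rfl⟩ := Prod.mk.inj h
        rfl
      · intro h
        apply hn1
        obtain ⟨rfl, rfl⟩ := Prod.mk.inj h
        rfl
    exact hadj.ne (Prod.mk.inj this).2
  refine ⟨a, b, C ∪ D, hadj, mem_union_right _ haD, by simp [hbC, hbD], ?_⟩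
  intro p hp q hq hpq
  simp only [mem_union, not_or] at hp hq
  have hpD : p ∈ D := by
    rcases hp with hp | hp
    · exact absurd (hCD p hp q hpq) hq.2
    · exact hp
  have : (p, q) = (a, b) := by
    apply huniq
    · simp [Q, hpD, hpq, hq.1]
    · intro h
      obtain ⟨rfl, rfl⟩ := Prod.mk.inj h
      exact hq.2 hvD
    · intro h
      obtain ⟨rfl, rfl⟩ := Prod.mk.inj h
      exact hq.2 huD
  exact Prod.mk.inj this

theorem exists_good_edge [Nonempty V] (hreg : G.IsRegularOfDegree 3) :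
    ∃ u v, G.Adj u v ∧ ¬ Bad G u v := by
  by_cases hb : ∃ a b K, Bridge G a b K
  · obtain ⟨a, b, K, hK⟩ := hb
    exact ⟨a, b, hK.1, not_bad_of_bridge G hreg hK⟩
  · obtain ⟨u⟩ := ‹Nonempty V›
    have : 0 < (G.neighborFinset u).card := by
      rw [G.card_neighborFinset_eq_degree, hreg u]; norm_num
    obtain ⟨v, hv⟩ := Finset.card_pos.mp this
    have huv : G.Adj u v := by simpa using hv
    exact ⟨u, v, huv, fun hbad => hb (bridge_of_bad G hreg huv hbad)⟩

end Pool.Agent.Lib.MP_579feb_co
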