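import Mathlib

set_option autoImplicit false

namespace Pool.Agent.Lib.MP_579feb_co

open Finset

/-- Seymour's lemma: a finite family of finite sets in which every nonempty subfamily covers more
points than it has members has a two-colouring with no monochromatic member. -/
theorem seymour {X I : Type*} [DecidableEq X] [DecidableEq I] (E : I → Finset X) (J : Finset I)
    (h : ∀ K ⊆ J, K.Nonempty → K.card + 1 ≤ (K.biUnion E).card) :
    ∃ c : X → Bool, ∀ i ∈ J, (∃ x ∈ E i, c x = true) ∧ (∃ x ∈ E i, c x = false) := by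
  induction J using Finset.strongInduction with
  | H J ih =>
    rcases J.eq_empty_or_nonempty with rfl | hne
    · exact ⟨fun _ => true, by simp⟩
    set P := J.biUnion E with hP
    have hcard : J.card + 1 ≤ P.card := h J Subset.rfl hne
    let v : P → (J → ℚ) := fun x i => if x.1 ∈ E i.1 then 1 else 0
    have hdep : ¬ LinearIndependent ℚ v := by
      intro hli
      have := hli.fintype_card_le_finrank
      simp at this
      omega
    rw [Fintype.not_linearIndependent_iff] at hdep
    obtain ⟨f, hf0, x0, hx0⟩ := hdep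
    let g : X → ℚ := fun x => if hx : x ∈ P then f ⟨x, hx⟩ else 0
    have hsum : ∀ i ∈ J, ∑ x ∈ E i, g x = 0 := by
      intro i hi
      have h1 := congrFun hf0 ⟨i, hi⟩
      simp only [Finset.sum_apply, Pi.smul_apply, smul_eq_mul, Pi.zero_apply, v] at h1
      have h2 : ∑ x : P, f x * (if x.1 ∈ E i then (1 : ℚ) else 0)
          = ∑ x ∈ P, (if x ∈ E i then g x else 0) := by
        rw [← Finset.sum_coe_sort P]
        refine Finset.sum_congr rfl ?_
        intro x _
        by_cases hx : x.1 ∈ E i <;> simp [hx, g, x.2]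
      rw [h2, ← Finset.sum_filter] at h1
      have h3 : P.filter (fun x => x ∈ E i) = E i := by
        ext x
        simp only [mem_filter, hP, mem_biUnion]
        constructor
        · exact fun hx => hx.2
        · exact fun hx => ⟨⟨i, hi, hx⟩, hx⟩
      rwa [h3] at h1
    let J' := J.filter (fun i => ∀ x ∈ E i, g x = 0)
    have hJ' : J' ⊂ J := by
      refine Finset.filter_ssubset.mpr ?_
      obtain ⟨i, hi, hxi⟩ := mem_biUnion.mp x0.2
      refine ⟨i, hi, ?_⟩
      intro hall
      have := hall x0.1 hxi
      simp only [g, x0.2, dif_pos] at this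
      exact hx0 this
    obtain ⟨c', hc'⟩ := ih J' hJ' (fun K hK hKne => h K (hK.trans hJ'.subset) hKne)
    refine ⟨fun x => if g x = 0 then c' x else decide (0 < g x), ?_⟩
    intro i hi
    by_cases hz : ∀ x ∈ E i, g x = 0
    · have hi' : i ∈ J' := mem_filter.mpr ⟨hi, hz⟩
      obtain ⟨⟨x, hx, hcx⟩, ⟨y, hy, hcy⟩⟩ := hc' i hi'
      exact ⟨⟨x, hx, by simp [hz x hx, hcx]⟩, ⟨y, hy, by simp [hz y hy, hcy]⟩⟩
    · have hpos : ∃ x ∈ E i, 0 < g x := by
        by_contra hno
        push Not at hno
        apply hz
        have := (Finset.sum_eq_zero_iff_of_nonpos hno).mp (hsum i hi)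
        exact this
      have hneg : ∃ x ∈ E i, g x < 0 := by
        by_contra hno
        push Not at hno
        apply hz
        have := (Finset.sum_eq_zero_iff_of_nonneg hno).mp (hsum i hi)
        exact this
      obtain ⟨x, hx, hgx⟩ := hpos
      obtain ⟨y, hy, hgy⟩ := hneg
      refine ⟨⟨x, hx, ?_⟩, ⟨y, hy, ?_⟩⟩
      · simp [hgx.ne', hgx]
      · simp [hgy.ne, hgy.le]

end Pool.Agent.Lib.MP_579feb_co
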