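import Mathlib
import Pool.Agent.Lib.MP_579feb_co.Seymour
import Pool.Agent.Lib.MP_579feb_co.Count

set_option autoImplicit false

namespace Pool.Agent.Lib.MP_579feb_co

open Finset

variable {V : Type*} [Fintype V] [DecidableEq V] (G : SimpleGraph V) [DecidableRel G.Adj]

/-- A set of vertices closed under adjacency in a connected graph is empty or everything. -/
theorem closed_eq_univ (hconn : G.Connected) (T : Finset V) (t : V) (ht : t ∈ T)
    (hT : ∀ x ∈ T, ∀ y, G.Adj x y → y ∈ T) (z : V) : z ∈ T := by
  obtain ⟨p⟩ := hconn.preconnected t z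
  induction p with
  | nil => exact ht
  | cons h _ ih => exact ih (hT _ ht _ h)

/-- A colouring in which the ends of a good edge agree and all other neighbourhoods see both
colours. -/
theorem exists_colouring (hconn : G.Connected) (hreg : G.IsRegularOfDegree 3) {u v : V}
    (huv : G.Adj u v) (hgood : ¬ Bad G u v) :
    ∃ A : Finset V, u ∈ A ∧ v ∈ A ∧ ∀ w, w ≠ u → w ≠ v →
      (∃ x ∈ A, G.Adj w x) ∧ (∃ x, x ∉ A ∧ G.Adj w x) := by
  let φ : V → V := fun x => if x = v then u else x
  have key : ∀ K ⊆ (univ \ {u, v} : Finset V), K.Nonempty →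
      K.card + 1 ≤ (K.biUnion (fun w => (G.neighborFinset w).image φ)).card := by
    intro K hK hne
    have huK : u ∉ K := fun h => by simpa using hK h
    have hvK : v ∉ K := fun h => by simpa using hK h
    set P := K.biUnion (fun w => G.neighborFinset w) with hP
    have hPmem : ∀ x, x ∈ P ↔ ∃ w ∈ K, G.Adj w x := by
      intro x; simp [hP]
    have himg : K.biUnion (fun w => (G.neighborFinset w).image φ) = P.image φ := by
      rw [hP, Finset.biUnion_image]
    rw [himg]
    have hKP : ∀ c ∈ K, ∀ w, G.Adj c w → w ∈ P := fun c hc w hw => (hPmem w).mpr ⟨c, hc, hw⟩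
    have h1 : K.card + 1 ≤ P.card := by
      by_contra hcon
      have hcl : ∀ d ∈ P, ∀ w, G.Adj d w → w ∈ K := by
        intro d hd w hw
        by_contra hwK
        exact hcon (card_succ_le G hreg K P hKP d w hd hw hwK)
      obtain ⟨k, hk⟩ := hne
      have hu : u ∈ K ∪ P := by
        refine closed_eq_univ G hconn (K ∪ P) k (mem_union_left _ hk) ?_ u
        intro x hx y hxy
        rcases mem_union.mp hx with hx | hx
        · exact mem_union_right _ (hKP x hx y hxy)
        · exact mem_union_left _ (hcl x hx y hxy)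
      rcases mem_union.mp hu with hu | hu
      · exact huK hu
      · exact hvK (hcl u hu v huv)
    by_cases hboth : u ∈ P ∧ v ∈ P
    · have h2 : K.card + 2 ≤ P.card := by
        by_contra hcon
        apply hgood
        refine ⟨K \ P, P \ K, disjoint_sdiff_sdiff, ?_, ?_, mem_sdiff.mpr ⟨hboth.1, huK⟩,
          mem_sdiff.mpr ⟨hboth.2, hvK⟩⟩
        · intro c hc w hw
          obtain ⟨hcK, hcP⟩ := mem_sdiff.mp hc
          exact mem_sdiff.mpr ⟨hKP c hcK w hw, fun hwK => hcP (hKP w hwK c hw.symm)⟩
        · have h3 := Finset.card_sdiff_add_card_inter K P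
          have h4 := Finset.card_sdiff_add_card_inter P K
          rw [inter_comm] at h4
          omega
      have h3 : P.erase v ⊆ P.image φ := by
        intro x hx
        obtain ⟨hxv, hxP⟩ := mem_erase.mp hx
        exact mem_image.mpr ⟨x, hxP, by simp [φ, hxv]⟩
      have h4 := Finset.card_le_card h3
      rw [Finset.card_erase_of_mem hboth.2] at h4
      omega
    · have hinj : Set.InjOn φ P := by
        intro x hx y hy hxy
        simp only [φ] at hxy
        by_cases hxv : x = v <;> by_cases hyv : y = v
        · rw [hxv, hyv]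
        · simp only [hxv, hyv, if_true, if_false] at hxy
          exact absurd ⟨hxy ▸ hy, hxv ▸ hx⟩ hboth
        · simp only [hxv, hyv, if_true, if_false] at hxy
          exact absurd ⟨hxy ▸ hx, hyv ▸ hy⟩ hboth
        · simpa [hxv, hyv] using hxy
      rw [Finset.card_image_of_injOn hinj]
      exact h1
  obtain ⟨c, hc⟩ := seymour (fun w => (G.neighborFinset w).image φ) (univ \ {u, v}) key
  refine ⟨univ.filter (fun x => c (φ x) = c u), ?_, ?_, ?_⟩
  · simp [φ]
  · simp [φ]
  · intro w hwu hwv
    obtain ⟨⟨x, hx, hcx⟩, ⟨y, hy, hcy⟩⟩ := hc w (by simp [hwu, hwv])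
    obtain ⟨x', hx', rfl⟩ := mem_image.mp hx
    obtain ⟨y', hy', rfl⟩ := mem_image.mp hy
    simp only [SimpleGraph.mem_neighborFinset] at hx' hy'
    cases hcu : c u
    · exact ⟨⟨y', by simp [hcy], hy'⟩, ⟨x', by simp [hcx], hx'⟩⟩
    · exact ⟨⟨x', by simp [hcx], hx'⟩, ⟨y', by simp [hcy], hy'⟩⟩

/-- Total restrained dominating sets. -/
def TRD (S : Finset V) : Prop :=
  (∀ v, ∃ w ∈ S, G.Adj v w) ∧ (∀ v, v ∉ S → ∃ w, w ∉ S ∧ G.Adj v w)

/-- All neighbours of `x` lie in `S`. -/
def Full (S : Finset V) (x : V) : Prop := ∀ y, G.Adj x y → y ∈ S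

/-- `x` is the only neighbour in `S` of some vertex. -/
def Crit (S : Finset V) (x : V) : Prop := ∃ w, G.Adj w x ∧ ∀ y ∈ S, G.Adj w y → y = x

theorem even_card (hreg : G.IsRegularOfDegree 3) : Even (Fintype.card V) := by
  have h := G.sum_degrees_eq_twice_card_edges
  have h2 : ∑ v, G.degree v = 3 * Fintype.card V := by
    rw [Finset.sum_congr rfl (fun v _ => hreg v)]
    simp [mul_comm]
  rw [h2] at h
  have : Even (3 * Fintype.card V) := ⟨_, by rw [h]; ring⟩
  rcases Nat.even_mul.mp this with h3 | h3
  · exact absurd h3 (by decide)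
  · exact h3

theorem shrink (hreg : G.IsRegularOfDegree 3) (S₀ F N : Finset V) (hS₀ : TRD G S₀)
    (hF : ∀ x, Full G S₀ x → x ∈ F) (hN : ∀ x, Full G S₀ x → ¬ Crit G S₀ x → x ∈ N)
    (hcard : F.card + N.card ≤ 3) :
    ∃ S : Finset V, TRD G S ∧ 2 * S.card ≤ Fintype.card V := by
  classical
  obtain ⟨S, hS, hmin⟩ := Finset.exists_min_image
    ((S₀.powerset).filter (fun S => TRD G S)) Finset.card
    ⟨S₀, by simp [hS₀]⟩
  simp only [mem_filter, mem_powerset] at hS hmin
  obtain ⟨hsub, hT⟩ := hS
  refine ⟨S, hT, ?_⟩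
  have hall : ∀ x ∈ S, Crit G S x ∨ x ∈ N := by
    intro x hx
    by_contra hcon
    push Not at hcon
    obtain ⟨hnc, hxN⟩ := hcon
    have hnc0 : ¬ Crit G S₀ x := by
      rintro ⟨w, hw, hw2⟩
      exact hnc ⟨w, hw, fun y hy => hw2 y (hsub hy)⟩
    have hnf : ¬ Full G S x := by
      intro hf
      exact hxN (hN x (fun y hy => hsub (hf y hy)) hnc0)
    have hT' : TRD G (S.erase x) := by
      constructor
      · intro w
        by_contra hno
        push Not at hno
        obtain ⟨y, hy, hwy⟩ := hT.1 w
        have hyx : ∀ y ∈ S, G.Adj w y → y = x := by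
          intro y hy hwy
          by_contra hne
          exact hno y (mem_erase.mpr ⟨hne, hy⟩) hwy
        apply hnc
        exact ⟨w, hyx y hy hwy ▸ hwy, hyx⟩
      · intro w hw
        by_cases hwx : w = x
        · subst hwx
          simp only [Full, not_forall] at hnf
          obtain ⟨y, hy, hyS⟩ := hnf
          exact ⟨y, fun h => hyS (mem_of_mem_erase h), hy⟩
        · have hwS : w ∉ S := fun h => hw (mem_erase.mpr ⟨hwx, h⟩)
          obtain ⟨y, hy, hwy⟩ := hT.2 w hwS
          exact ⟨y, fun h => hy (mem_of_mem_erase h), hwy⟩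
    have := hmin (S.erase x) ⟨(erase_subset x S).trans hsub, hT'⟩
    rw [Finset.card_erase_of_mem hx] at this
    have : 0 < S.card := Finset.card_pos.mpr ⟨x, hx⟩
    omega
  let h : V → ℕ := fun w => (G.neighborFinset w ∩ S).card
  let E1 : Finset V := univ.filter (fun w => h w = 1)
  let E3 : Finset V := univ.filter (fun w => h w = 3)
  have hsum : ∑ w, h w = 3 * S.card := by
    have := double_count G univ S
    simp only [inter_univ] at this
    rw [this, Finset.sum_congr rfl (fun v _ => (G.card_neighborFinset_eq_degree v).trans (hreg v))]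
    simp [mul_comm]
  have hle3 : ∀ w, h w ≤ 3 := by
    intro w
    have := Finset.card_le_card (Finset.inter_subset_left (s₁ := G.neighborFinset w) (s₂ := S))
    rwa [G.card_neighborFinset_eq_degree, hreg w] at this
  have hge1 : ∀ w, 1 ≤ h w := by
    intro w
    obtain ⟨y, hy, hwy⟩ := hT.1 w
    exact Finset.card_pos.mpr ⟨y, by simp [hy, hwy]⟩
  have hcount : 3 * S.card + E1.card = 2 * Fintype.card V + E3.card := by
    rw [← hsum, Finset.card_filter, Finset.card_filter, ← Finset.sum_add_distrib,
      ← Finset.card_univ, mul_comm, ← smul_eq_mul, ← Finset.sum_const, ← Finset.sum_add_distrib]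
    refine Finset.sum_congr rfl ?_
    intro w _
    have h1 := hle3 w
    have h2 := hge1 w
    split_ifs <;> omega
  have hE3 : E3.card ≤ F.card := by
    apply Finset.card_le_card
    intro w hw
    have hw3 : h w = 3 := (mem_filter.mp hw).2
    apply hF
    intro y hy
    have : G.neighborFinset w ∩ S = G.neighborFinset w := by
      apply Finset.eq_of_subset_of_card_le Finset.inter_subset_left
      rw [G.card_neighborFinset_eq_degree, hreg w]
      exact hw3.ge
    have hy' : y ∈ G.neighborFinset w ∩ S := by rw [this]; simpa using hy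
    exact hsub (mem_inter.mp hy').2
  have hcrit : (S.filter (fun x => Crit G S x)).card ≤ E1.card := by
    have hsub2 : S.filter (fun x => Crit G S x) ⊆ E1.biUnion (fun w => G.neighborFinset w ∩ S) := by
      intro x hx
      obtain ⟨hxS, w, hw, hw2⟩ := mem_filter.mp hx
      refine mem_biUnion.mpr ⟨w, ?_, by simp [hw, hxS]⟩
      refine mem_filter.mpr ⟨mem_univ _, ?_⟩
      refine Finset.card_eq_one.mpr ⟨x, ?_⟩
      ext y
      simp only [mem_inter, SimpleGraph.mem_neighborFinset, mem_singleton]
      constructor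
      · exact fun hy => hw2 y hy.2 hy.1
      · rintro rfl
        exact ⟨hw, hxS⟩
    refine (Finset.card_le_card hsub2).trans (Finset.card_biUnion_le.trans ?_)
    rw [Finset.card_eq_sum_ones E1]
    refine Finset.sum_le_sum ?_
    intro w hw
    exact (mem_filter.mp hw).2.le
  have hS : S.card ≤ (S.filter (fun x => Crit G S x)).card + N.card := by
    refine le_trans (Finset.card_le_card ?_) (Finset.card_union_le _ _)
    intro x hx
    rcases hall x hx with h1 | h1
    · exact mem_union_left _ (mem_filter.mpr ⟨hx, h1⟩)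
    · exact mem_union_right _ h1
  obtain ⟨m, hm⟩ := even_card G hreg
  omega

theorem third_nbr (hreg : G.IsRegularOfDegree 3) {w a b c y : V} (ha : G.Adj w a) (hb : G.Adj w b)
    (hc : G.Adj w c) (hab : a ≠ b) (hac : a ≠ c) (hbc : b ≠ c) (hy : G.Adj w y) :
    y = a ∨ y = b ∨ y = c := by
  have hsub : ({a, b, c} : Finset V) ⊆ G.neighborFinset w := by
    intro x hx
    simp only [mem_insert, mem_singleton] at hx
    rcases hx with rfl | rfl | rfl <;> simpa
  have h3 : ({a, b, c} : Finset V).card = 3 := Finset.card_eq_three.mpr ⟨a, b, c, hab, hac, hbc, rfl⟩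
  have heq := Finset.eq_of_subset_of_card_le hsub
    (by rw [G.card_neighborFinset_eq_degree, hreg w, h3])
  have : y ∈ ({a, b, c} : Finset V) := by rw [heq]; simpa using hy
  simpa using this

theorem other_nbr (hreg : G.IsRegularOfDegree 3) (w a : V) : ∃ y, G.Adj w y ∧ y ≠ a := by
  have : 0 < ((G.neighborFinset w).erase a).card := by
    have h1 := Finset.pred_card_le_card_erase (s := G.neighborFinset w) (a := a)
    rw [G.card_neighborFinset_eq_degree, hreg w] at h1
    omega
  obtain ⟨y, hy⟩ := Finset.card_pos.mp this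
  obtain ⟨h1, h2⟩ := mem_erase.mp hy
  exact ⟨y, by simpa using h2, h1⟩

theorem main (hconn : G.Connected) (hreg : G.IsRegularOfDegree 3) :
    ∃ S : Finset V, TRD G S ∧ 2 * S.card ≤ Fintype.card V := by
  classical
  have : Nonempty V := hconn.nonempty
  obtain ⟨u, v, huv, hgood⟩ := exists_good_edge G hreg
  obtain ⟨A, huA, hvA, hA⟩ := exists_colouring G hconn hreg huv hgood
  have hTA : TRD G A := by
    constructor
    · intro w
      by_cases hwu : w = u
      · exact ⟨v, hvA, hwu ▸ huv⟩
      by_cases hwv : w = v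
      · exact ⟨u, huA, hwv ▸ huv.symm⟩
      exact (hA w hwu hwv).1
    · intro w hw
      exact (hA w (fun h => hw (h ▸ huA)) (fun h => hw (h ▸ hvA))).2
  have hfull : ∀ x, Full G A x → x = u ∨ x = v := by
    intro x hx
    by_contra hcon
    push Not at hcon
    obtain ⟨y, hy, hxy⟩ := (hA x hcon.1 hcon.2).2
    exact hy (hx y hxy)
  have hpair : ({u, v} : Finset V).card ≤ 2 := Finset.card_le_two
  by_cases hfu : Full G A u
  swap
  · refine shrink G hreg A {v} {v} hTA ?_ ?_ (by simp)
    · intro x hx
      rcases hfull x hx with rfl | rfl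
      · exact absurd hx hfu
      · simp
    · intro x hx _
      rcases hfull x hx with rfl | rfl
      · exact absurd hx hfu
      · simp
  by_cases hfv : Full G A v
  swap
  · refine shrink G hreg A {u} {u} hTA ?_ ?_ (by simp)
    · intro x hx
      rcases hfull x hx with rfl | rfl
      · simp
      · exact absurd hx hfv
    · intro x hx _
      rcases hfull x hx with rfl | rfl
      · simp
      · exact absurd hx hfv
  by_cases hcu : Crit G A u
  · refine shrink G hreg A {u, v} {v} hTA ?_ ?_ (by simp only [card_singleton]; omega)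
    · intro x hx
      simpa using hfull x hx
    · intro x hx hnc
      rcases hfull x hx with rfl | rfl
      · exact absurd hcu hnc
      · simp
  by_cases hcv : Crit G A v
  · refine shrink G hreg A {u, v} {u} hTA ?_ ?_ (by simp only [card_singleton]; omega)
    · intro x hx
      simpa using hfull x hx
    · intro x hx hnc
      rcases hfull x hx with rfl | rfl
      · simp
      · exact absurd hcv hnc
  by_cases hcommon : ∃ w, G.Adj w u ∧ G.Adj w v
  · obtain ⟨w, hwu, hwv⟩ := hcommon
    obtain ⟨w', hw'A, hww'⟩ := (hA w hwu.ne hwv.ne).2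
    have hfull' : ∀ x, Full G (insert w Aᶜ) x → x = w' := by
      intro x hx
      have hxu : x ≠ u := by
        rintro rfl
        have := hx v huv
        simp [hvA, hwv.ne'] at this
      have hxv : x ≠ v := by
        rintro rfl
        have := hx u huv.symm
        simp [huA, hwu.ne'] at this
      obtain ⟨y, hy, hxy⟩ := (hA x hxu hxv).1
      have hyw : y = w := by simpa [hy] using hx y hxy
      subst hyw
      rcases third_nbr G hreg hwu hwv hww' huv.ne (fun h => hw'A (h ▸ huA))
        (fun h => hw'A (h ▸ hvA)) hxy.symm with h | h | h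
      · exact absurd h hxu
      · exact absurd h hxv
      · exact h
    refine shrink G hreg (insert w Aᶜ) {w'} {w'} ⟨?_, ?_⟩ ?_ ?_ (by simp)
    · intro x
      by_cases hxu : x = u
      · exact ⟨w, mem_insert_self _ _, hxu ▸ hwu.symm⟩
      by_cases hxv : x = v
      · exact ⟨w, mem_insert_self _ _, hxv ▸ hwv.symm⟩
      obtain ⟨y, hy, hxy⟩ := (hA x hxu hxv).2
      exact ⟨y, by simp [hy], hxy⟩
    · intro x hx
      by_contra hno
      push Not at hno
      have hf : Full G (insert w Aᶜ) x := by
        intro y hy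
        by_contra hy'
        exact hno y hy' hy
      have := hfull' x hf
      subst this
      exact hx (by simp [hw'A])
    · intro x hx
      simp [hfull' x hx]
    · intro x hx _
      simp [hfull' x hx]
  · push Not at hcommon
    have hnf : ∀ x, ∃ y, y ∉ (A.erase u).erase v ∧ G.Adj x y := by
      intro x
      by_cases hxu : x = u
      · exact ⟨v, by simp, hxu ▸ huv⟩
      by_cases hxv : x = v
      · exact ⟨u, by simp, hxv ▸ huv.symm⟩
      obtain ⟨y, hy, hxy⟩ := (hA x hxu hxv).2
      exact ⟨y, by simp [hy], hxy⟩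
    refine shrink G hreg ((A.erase u).erase v) ∅ ∅ ⟨?_, fun x _ => hnf x⟩ ?_ ?_ (by simp)
    · intro x
      by_cases hxu : x = u
      · subst hxu
        obtain ⟨y, hy, hyv⟩ := other_nbr G hreg x v
        exact ⟨y, by simp [hyv, hy.ne', hfu y hy], hy⟩
      by_cases hxv : x = v
      · subst hxv
        obtain ⟨y, hy, hyu⟩ := other_nbr G hreg x u
        exact ⟨y, by simp [hyu, hy.ne', hfv y hy], hy⟩
      obtain ⟨y, hy, hxy⟩ := (hA x hxu hxv).1
      by_cases hyu : y = u
      · subst hyu
        simp only [Crit, not_exists, not_and, not_forall] at hcu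
        obtain ⟨z, hz, hxz, hzy⟩ := hcu x hxy
        refine ⟨z, ?_, hxz⟩
        have hzv : z ≠ v := fun h => hcommon x hxy (h ▸ hxz)
        simp [hzv, hzy, hz]
      by_cases hyv : y = v
      · subst hyv
        simp only [Crit, not_exists, not_and, not_forall] at hcv
        obtain ⟨z, hz, hxz, hzy⟩ := hcv x hxy
        refine ⟨z, ?_, hxz⟩
        have hzu : z ≠ u := fun h => hcommon x (h ▸ hxz) hxy
        simp [hzu, hzy, hz]
      exact ⟨y, by simp [hyu, hyv, hy], hxy⟩
    · intro x hx
      obtain ⟨y, hy, hxy⟩ := hnf x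
      exact absurd (hx y hxy) hy
    · intro x hx
      obtain ⟨y, hy, hxy⟩ := hnf x
      exact absurd (hx y hxy) hy

end Pool.Agent.Lib.MP_579feb_co
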